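import Pool.Agent.Q113.XM.Stm

/-!
# Project XM: greedy choice of disjoint edges at given vertices
-/

set_option autoImplicit false

namespace Pool.Agent.Q162.XM

open Finset Pool.Agent.W890.SF Pool.Agent.Q113.XM

theorem pair_count {n k : ℕ} (hk : 2 ≤ k) (F : Finset (Finset (Fin n))) (hF : Unif k F) (v w : Fin n) (hvw : v ≠ w) :
    (F.filter (fun e => v ∈ e ∧ w ∈ e)).card ≤ n ^ (k - 2) := by
  have h1 : (F.filter (fun e => v ∈ e ∧ w ∈ e)).card ≤ ((univ : Finset (Fin n)).powersetCard (k - 2)).card := by
    refine Finset.card_le_card_of_injOn (fun e => (e.erase v).erase w) ?_ ?_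
    · intro e he
      rw [Finset.coe_filter] at he
      obtain ⟨h1, h2, h3⟩ := he
      rw [Finset.mem_coe, Finset.mem_powersetCard]
      refine ⟨Finset.subset_univ _, ?_⟩
      rw [Finset.card_erase_of_mem (Finset.mem_erase.2 ⟨hvw.symm, h3⟩), Finset.card_erase_of_mem h2, hF e h1]
      omega
    · intro e he e' he' h
      rw [Finset.coe_filter] at he he'
      obtain ⟨-, h2, h3⟩ := he
      obtain ⟨-, h2', h3'⟩ := he'
      have e1 : e = insert v (insert w ((e.erase v).erase w)) := by
        rw [Finset.insert_erase (Finset.mem_erase.2 ⟨hvw.symm, h3⟩), Finset.insert_erase h2]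
      have e2 : e' = insert v (insert w ((e'.erase v).erase w)) := by
        rw [Finset.insert_erase (Finset.mem_erase.2 ⟨hvw.symm, h3'⟩), Finset.insert_erase h2']
      have h' : (e.erase v).erase w = (e'.erase v).erase w := h
      rw [e1, e2, h']
  rw [Finset.card_powersetCard, Finset.card_univ, Fintype.card_fin] at h1
  exact h1.trans (Nat.choose_le_pow _ _)

theorem meet_count {n k : ℕ} (hk : 2 ≤ k) (F : Finset (Finset (Fin n))) (hF : Unif k F) (v : Fin n)
    (W : Finset (Fin n)) (hv : v ∉ W) :
    (F.filter (fun e => v ∈ e ∧ ¬ Disjoint e W)).card ≤ W.card * n ^ (k - 2) := by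
  have h1 : F.filter (fun e => v ∈ e ∧ ¬ Disjoint e W) ⊆ W.biUnion fun w => F.filter (fun e => v ∈ e ∧ w ∈ e) := by
    intro e he
    obtain ⟨h1, h2, h3⟩ := Finset.mem_filter.1 he
    obtain ⟨w, hw1, hw2⟩ := Finset.not_disjoint_iff.1 h3
    exact Finset.mem_biUnion.2 ⟨w, hw2, Finset.mem_filter.2 ⟨h1, h2, hw1⟩⟩
  refine (Finset.card_le_card h1).trans (Finset.card_biUnion_le.trans ?_)
  refine (Finset.sum_le_card_nsmul _ _ (n ^ (k - 2)) fun w hw => ?_).trans (le_of_eq (smul_eq_mul _ _))
  exact pair_count hk F hF v w fun h => hv (h ▸ hw)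

/-- JOB GRE -/
theorem t_GRE : S_GRE := by
  intro k hk c hc
  have hk1 : (0 : ℝ) < (k : ℝ) + 1 := by positivity
  refine ⟨c / (2 * (k + 1)), by positivity, 1, ?_⟩
  intro n hn F hF X Z hXZ hX hXZn
  have hn0 : (0 : ℝ) < n := by exact_mod_cast hn
  have key : ∀ A : Finset (Fin n), A ⊆ X → ∃ M ⊆ F, Mtch M ∧ M.card = A.card ∧ (∀ e ∈ M, Disjoint e Z) ∧
      A ⊆ M.biUnion id ∧ ∀ e ∈ M, e ∩ X ⊆ A := by
    intro A
    induction A using Finset.induction_on with
    | empty =>
      intro _
      refine ⟨∅, Finset.empty_subset _, ?_, rfl, ?_, ?_, ?_⟩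
      · intro e he
        exact absurd he (Finset.notMem_empty _)
      · intro e he
        exact absurd he (Finset.notMem_empty _)
      · exact Finset.empty_subset _
      · intro e he
        exact absurd he (Finset.notMem_empty _)
    | insert v A hv ih =>
      intro hA
      have hvX : v ∈ X := hA (Finset.mem_insert_self _ _)
      have hAX : A ⊆ X := fun a ha => hA (Finset.mem_insert_of_mem ha)
      obtain ⟨M, hMF, hM1, hM2, hM3, hM4, hM5⟩ := ih hAX
      set W : Finset (Fin n) := (X.erase v) ∪ Z ∪ M.biUnion id with hW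
      have hvW : v ∉ W := by
        rw [hW]
        simp only [Finset.mem_union, Finset.mem_erase, ne_eq, not_true_eq_false, false_and, false_or, not_or]
        refine ⟨fun h => Finset.disjoint_left.1 hXZ hvX h, fun h => ?_⟩
        obtain ⟨e, he, hve⟩ := Finset.mem_biUnion.1 h
        exact hv (hM5 e he (Finset.mem_inter.2 ⟨hve, hvX⟩))
      have hAc : A.card + 1 ≤ X.card := by
        have h1 := Finset.card_le_card hA
        rwa [Finset.card_insert_of_notMem hv] at h1
      have hMc : (M.biUnion id).card ≤ k * A.card := by
        refine Finset.card_biUnion_le.trans ?_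
        refine (Finset.sum_le_card_nsmul M _ k fun e he => ?_).trans ?_
        · exact (hF e (hMF he)).le
        · rw [smul_eq_mul, hM2, mul_comm]
      have hWc : W.card ≤ X.card + Z.card + k * X.card := by
        have h1 : W.card ≤ (X.erase v).card + Z.card + (M.biUnion id).card := by
          refine (Finset.card_union_le _ _).trans ?_
          exact Nat.add_le_add_right (Finset.card_union_le _ _) _
        have h2 : (X.erase v).card ≤ X.card := Finset.card_le_card (Finset.erase_subset _ _)
        have h3 : k * A.card ≤ k * X.card := Nat.mul_le_mul_left k (by omega)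
        omega
      have hbad := meet_count hk F hF v W hvW
      have hex : ∃ e ∈ F, v ∈ e ∧ Disjoint e W := by
        by_contra hcon
        push Not at hcon
        have h1 : F.filter (fun e => v ∈ e) = F.filter (fun e => v ∈ e ∧ ¬ Disjoint e W) := by
          refine Finset.filter_congr fun e he => ?_
          exact ⟨fun h => ⟨h, hcon e he h⟩, fun h => h.1⟩
        have h2 : dg F v ≤ W.card * n ^ (k - 2) := by
          unfold dg
          rw [h1]
          exact hbad
        have h3 : (dg F v : ℝ) ≤ W.card * (n : ℝ) ^ (k - 2) := by exact_mod_cast h2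
        have h4 : (W.card : ℝ) ≤ (k + 1) * (c / (2 * (k + 1)) * n) := by
          have h5 : (W.card : ℝ) ≤ X.card + Z.card + k * X.card := by exact_mod_cast hWc
          have h6 : (X.card : ℝ) ≤ X.card + Z.card := by
            have := Nat.cast_nonneg (α := ℝ) Z.card
            linarith
          have h7 : (k : ℝ) * X.card ≤ k * (X.card + Z.card) :=
            mul_le_mul_of_nonneg_left h6 (Nat.cast_nonneg k)
          calc (W.card : ℝ) ≤ (k + 1) * (X.card + Z.card) := by linarith
            _ ≤ _ := mul_le_mul_of_nonneg_left hXZn hk1.le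
        have h5 : ((k : ℝ) + 1) * (c / (2 * (k + 1)) * n) = c / 2 * n := by
          field_simp
        rw [h5] at h4
        have h6 : (n : ℝ) * (n : ℝ) ^ (k - 2) = (n : ℝ) ^ (k - 1) := by
          rw [← pow_succ']
          congr 1
          omega
        have h7 : (W.card : ℝ) * (n : ℝ) ^ (k - 2) ≤ c / 2 * (n : ℝ) ^ (k - 1) := by
          rw [← h6]
          calc (W.card : ℝ) * (n : ℝ) ^ (k - 2) ≤ (c / 2 * n) * (n : ℝ) ^ (k - 2) :=
                mul_le_mul_of_nonneg_right h4 (pow_nonneg hn0.le _)
            _ = _ := by ring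
        have h8 := hX v hvX
        have h9 : 0 < c * (n : ℝ) ^ (k - 1) := by positivity
        linarith
      obtain ⟨e, heF, hve, heW⟩ := hex
      have heM : ∀ e' ∈ M, Disjoint e e' := by
        intro e' he'
        rw [Finset.disjoint_left] at heW ⊢
        intro a ha ha'
        exact heW ha (Finset.mem_union_right _ (Finset.mem_biUnion.2 ⟨e', he', ha'⟩))
      have heN : e ∉ M := by
        intro h
        exact Finset.disjoint_left.1 (heM e h) hve hve
      refine ⟨insert e M, ?_, ?_, ?_, ?_, ?_, ?_⟩
      · intro e' he'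
        rcases Finset.mem_insert.1 he' with rfl | h
        · exact heF
        · exact hMF h
      · intro a ha b hb hab
        rcases Finset.mem_insert.1 ha with ha' | ha'
        · rcases Finset.mem_insert.1 hb with hb' | hb'
          · exact absurd (ha'.trans hb'.symm) hab
          · rw [ha']
            exact heM b hb'
        · rcases Finset.mem_insert.1 hb with hb' | hb'
          · rw [hb']
            exact (heM a ha').symm
          · exact hM1 a ha' b hb' hab
      · rw [Finset.card_insert_of_notMem heN, Finset.card_insert_of_notMem hv, hM2]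
      · intro e' he'
        rcases Finset.mem_insert.1 he' with rfl | h
        · refine Finset.disjoint_of_subset_right ?_ heW
          intro a ha
          exact Finset.mem_union_left _ (Finset.mem_union_right _ ha)
        · exact hM3 e' h
      · intro a ha
        rcases Finset.mem_insert.1 ha with rfl | ha
        · exact Finset.mem_biUnion.2 ⟨e, Finset.mem_insert_self _ _, hve⟩
        · obtain ⟨e', he', hae'⟩ := Finset.mem_biUnion.1 (hM4 ha)
          exact Finset.mem_biUnion.2 ⟨e', Finset.mem_insert_of_mem he', hae'⟩
      · intro e' he' a ha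
        obtain ⟨ha1, ha2⟩ := Finset.mem_inter.1 ha
        rcases Finset.mem_insert.1 he' with rfl | h
        · by_cases hav : a = v
          · rw [hav]
            exact Finset.mem_insert_self _ _
          · exfalso
            refine Finset.disjoint_left.1 heW ha1 ?_
            exact Finset.mem_union_left _ (Finset.mem_union_left _ (Finset.mem_erase.2 ⟨hav, ha2⟩))
        · exact Finset.mem_insert_of_mem (hM5 e' h ha)
  obtain ⟨M, h1, h2, h3, h4, h5, -⟩ := key X (Finset.Subset.refl _)
  exact ⟨M, h1, h2, h3, h4, h5⟩

end Pool.Agent.Q162.XM
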