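import Pool.Agent.Q113.XM.Stm

/-!
# Project XM: perturbation and shift of a finite law
-/

set_option autoImplicit false

namespace Pool.Agent.Q162.XM

open Finset Pool.Agent.W890.SF Pool.Agent.W593.IR Pool.Agent.Q54.EM Pool.Agent.Q113.XM

section base

variable {ι : Type} [Fintype ι]

theorem EE_nn (p y : ι → ℝ) (hp : ∀ i, 0 ≤ p i) (n : ℕ) : ∀ f : ℝ → ℝ, (∀ s, 0 ≤ f s) → 0 ≤ EE p y n f := by
  induction n with
  | zero => intro f hf; exact hf 0
  | succ n ih =>
    intro f hf
    exact Finset.sum_nonneg fun i _ => mul_nonneg (hp i) (ih _ fun s => hf _)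

theorem EE_mono (p y : ι → ℝ) (hp : ∀ i, 0 ≤ p i) (n : ℕ) : ∀ f g : ℝ → ℝ, (∀ s, f s ≤ g s) →
    EE p y n f ≤ EE p y n g := by
  induction n with
  | zero => intro f g hf; exact hf 0
  | succ n ih =>
    intro f g hf
    exact Finset.sum_le_sum fun i _ => mul_le_mul_of_nonneg_left (ih _ _ fun s => hf _) (hp i)

/-- the weights of the perturbed law -/
noncomputable def pO (p : ι → ℝ) (e : ℝ) : Option ι → ℝ := fun o => o.elim e (fun v => (1 - e) * p v)

/-- the values of the perturbed law -/
noncomputable def yO (y : ι → ℝ) (z : ℝ) : Option ι → ℝ := fun o => o.elim z y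

theorem EE_opt_ge (p y : ι → ℝ) (hp : ∀ i, 0 ≤ p i) (z e : ℝ) (h0 : 0 ≤ e) (h1 : e ≤ 1) (n : ℕ) :
    ∀ f : ℝ → ℝ, (∀ s, 0 ≤ f s) →
    (1 - e) ^ n * EE p y n f + n * e * (1 - e) ^ (n - 1) * EE p y (n - 1) (fun s => f (s + z)) ≤
      EE (pO p e) (yO y z) n f := by
  have h1' : 0 ≤ 1 - e := by linarith
  induction n with
  | zero =>
    intro f _
    simp [EE]
  | succ n ih =>
    intro f hf
    have e1 : EE (pO p e) (yO y z) (n + 1) f = e * EE (pO p e) (yO y z) n (fun s => f (s + z)) +
        (1 - e) * ∑ v, p v * EE (pO p e) (yO y z) n (fun s => f (s + y v)) := by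
      show ∑ o : Option ι, pO p e o * EE (pO p e) (yO y z) n (fun s => f (s + yO y z o)) = _
      rw [Fintype.sum_option, Finset.mul_sum]
      congr 1
      refine Finset.sum_congr rfl fun v _ => ?_
      show (1 - e) * p v * EE (pO p e) (yO y z) n (fun s => f (s + y v)) = _
      ring
    rw [e1]
    have e2 : (1 - e) ^ n * EE p y n (fun s => f (s + z)) ≤
        EE (pO p e) (yO y z) n (fun s => f (s + z)) := by
      refine le_trans ?_ (ih (fun s => f (s + z)) fun s => hf _)
      have : 0 ≤ (n : ℝ) * e * (1 - e) ^ (n - 1) * EE p y (n - 1) (fun s => f (s + z + z)) :=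
        mul_nonneg (mul_nonneg (mul_nonneg (Nat.cast_nonneg n) h0) (pow_nonneg h1' _))
          (EE_nn p y hp _ _ fun s => hf _)
      linarith
    have e3 : ∀ v, p v * ((1 - e) ^ n * EE p y n (fun s => f (s + y v)) +
        n * e * (1 - e) ^ (n - 1) * EE p y (n - 1) (fun s => f (s + z + y v))) ≤
        p v * EE (pO p e) (yO y z) n (fun s => f (s + y v)) := by
      intro v
      have h4 := ih (fun s => f (s + y v)) fun s => hf _
      have h5 : (fun s => f (s + z + y v)) = fun s => (fun s => f (s + y v)) (s + z) := rfl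
      rw [h5]
      exact mul_le_mul_of_nonneg_left h4 (hp v)
    have e4 : ∑ v, p v * ((1 - e) ^ n * EE p y n (fun s => f (s + y v)) +
        n * e * (1 - e) ^ (n - 1) * EE p y (n - 1) (fun s => f (s + z + y v))) =
        (1 - e) ^ n * EE p y (n + 1) f +
        n * e * (1 - e) ^ (n - 1) * ∑ v, p v * EE p y (n - 1) (fun s => f (s + z + y v)) := by
      simp only [EE]
      rw [Finset.mul_sum, Finset.mul_sum, ← Finset.sum_add_distrib]
      refine Finset.sum_congr rfl fun v _ => ?_
      ring
    have e5 : n * e * (1 - e) ^ (n - 1) * ((1 - e) * ∑ v, p v * EE p y (n - 1) (fun s => f (s + z + y v))) =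
        n * e * (1 - e) ^ n * EE p y n (fun s => f (s + z)) := by
      rcases Nat.eq_zero_or_pos n with hn | hn
      · subst hn
        simp
      · obtain ⟨m, rfl⟩ : ∃ m, n = m + 1 := ⟨n - 1, by omega⟩
        have h6 : EE p y (m + 1) (fun s => f (s + z)) =
            ∑ v, p v * EE p y m (fun s => f (s + z + y v)) := by
          simp only [EE]
          refine Finset.sum_congr rfl fun v _ => ?_
          congr 2
          funext s
          congr 1
          ring
        rw [h6, Nat.add_sub_cancel, pow_succ]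
        ring
    have e6 : ∑ v, p v * ((1 - e) ^ n * EE p y n (fun s => f (s + y v)) +
        n * e * (1 - e) ^ (n - 1) * EE p y (n - 1) (fun s => f (s + z + y v))) ≤
        ∑ v, p v * EE (pO p e) (yO y z) n (fun s => f (s + y v)) :=
      Finset.sum_le_sum fun v _ => e3 v
    rw [e4] at e6
    have e7 := mul_le_mul_of_nonneg_left e6 h1'
    have e8 := mul_le_mul_of_nonneg_left e2 h0
    have e9 : (1 - e) * ((1 - e) ^ n * EE p y (n + 1) f +
        n * e * (1 - e) ^ (n - 1) * ∑ v, p v * EE p y (n - 1) (fun s => f (s + z + y v))) =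
        (1 - e) ^ (n + 1) * EE p y (n + 1) f +
        n * e * (1 - e) ^ n * EE p y n (fun s => f (s + z)) := by
      rw [← e5, pow_succ]
      ring
    rw [e9] at e7
    rw [Nat.add_sub_cancel]
    push_cast
    linarith

end base

/-- JOB PRT -/
theorem t_PRT : S_PRT := by
  intro k hk hL ι _ p y z e x hW hz h0 h1 hm hx hkx
  have h1' : 0 ≤ 1 - e := by linarith
  have hW' : Wl (pO p e) (yO y z) := by
    refine ⟨?_, ?_, ?_⟩
    · rintro (_ | v)
      · exact h0
      · exact mul_nonneg h1' (hW.p0 v)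
    · rw [Fintype.sum_option]
      show e + ∑ v, (1 - e) * p v = 1
      rw [← Finset.mul_sum, hW.p1]
      ring
    · rintro (_ | v)
      · exact hz
      · exact hW.y0 v
  have hmu : mu (pO p e) (yO y z) ≤ x := by
    unfold mu
    rw [Fintype.sum_option]
    show e * z + ∑ v, (1 - e) * p v * y v ≤ x
    have h2 : ∑ v, (1 - e) * p v * y v = (1 - e) * mu p y := by
      unfold mu
      rw [Finset.mul_sum]
      refine Finset.sum_congr rfl fun v _ => ?_
      ring
    rw [h2]
    linarith
  have h3 := hL (Option ι) (pO p e) (yO y z) x hW' hmu hx hkx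
  refine le_trans ?_ h3
  have h4 := EE_opt_ge p y hW.p0 z e h0 h1 k (fun s => if 1 ≤ s then 1 else 0) (fun s => by
    show (0 : ℝ) ≤ if 1 ≤ s then 1 else 0
    split_ifs <;> norm_num)
  have h5 : UP p y (k - 1) (1 - z) = EE p y (k - 1) (fun s => if 1 ≤ s + z then 1 else 0) := by
    unfold UP
    congr 1
    funext s
    refine if_congr ⟨fun h => ?_, fun h => ?_⟩ rfl rfl
    · linarith
    · linarith
  rw [h5]
  exact h4

end Pool.Agent.Q162.XM
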