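import Pool.Agent.Q162.XM.PRT

/-!
# Project XM: shift of a finite law
-/

set_option autoImplicit false

namespace Pool.Agent.Q162.XM

open Finset Pool.Agent.W890.SF Pool.Agent.W593.IR Pool.Agent.Q54.EM Pool.Agent.Q113.XM

theorem EE_shift {ι : Type} [Fintype ι] (p y : ι → ℝ) (hp : ∀ i, 0 ≤ p i) (g d : ℝ) (hd : 0 < d) (n : ℕ) :
    ∀ t : ℝ, EE p y n (fun s => if t ≤ s then 1 else 0) ≤
      EE p (fun i => max (y i - g) 0 / d) n (fun s => if (t - n * g) / d ≤ s then 1 else 0) := by
  induction n with
  | zero =>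
    intro t
    simp only [EE]
    by_cases h : t ≤ 0
    · have h2 : (t - ((0 : ℕ) : ℝ) * g) / d ≤ 0 := by
        rw [Nat.cast_zero, zero_mul, sub_zero]
        exact div_nonpos_of_nonpos_of_nonneg h hd.le
      rw [if_pos h, if_pos h2]
    · rw [if_neg h]
      split_ifs <;> norm_num
  | succ n ih =>
    intro t
    simp only [EE]
    refine Finset.sum_le_sum fun i _ => mul_le_mul_of_nonneg_left ?_ (hp i)
    have e1 : (fun s => if t ≤ s + y i then (1 : ℝ) else 0) = fun s => if t - y i ≤ s then 1 else 0 := by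
      funext s
      refine if_congr ⟨fun h => ?_, fun h => ?_⟩ rfl rfl
      · linarith
      · linarith
    rw [e1]
    refine (ih (t - y i)).trans (EE_mono p _ hp n _ _ fun s => ?_)
    by_cases h : (t - y i - n * g) / d ≤ s
    · have h2 : (t - ((n + 1 : ℕ) : ℝ) * g) / d ≤ s + max (y i - g) 0 / d := by
        have h3 : (t - ((n + 1 : ℕ) : ℝ) * g) / d ≤ (t - y i - n * g) / d + max (y i - g) 0 / d := by
          rw [← add_div]
          refine div_le_div_of_nonneg_right ?_ hd.le
          have := le_max_left (y i - g) 0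
          push_cast
          linarith
        linarith
      rw [if_pos h, if_pos h2]
    · rw [if_neg h]
      split_ifs <;> norm_num

/-- JOB SHI -/
theorem t_SHI : S_SHI := by
  intro k hk hL ι _ p y g x hW hg hkg hm hx
  have hd : 0 < 1 - (k : ℝ) * g := by linarith
  set m0 : ℝ := ∑ i, if y i ≤ g then p i else 0 with hm0
  set y' : ι → ℝ := fun i => max (y i - g) 0 / (1 - k * g) with hy'
  have hW' : Wl p y' := ⟨hW.p0, hW.p1, fun i => div_nonneg (le_max_right _ _) hd.le⟩
  have h1 : UP p y k 1 ≤ UP p y' k 1 := by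
    have h2 := EE_shift p y hW.p0 g (1 - k * g) hd k 1
    have h3 : (1 - (k : ℝ) * g) / (1 - k * g) = 1 := div_self hd.ne'
    rw [h3] at h2
    exact h2
  have hmu : mu p y' ≤ (x - g * (1 - m0)) / (1 - k * g) := by
    have h2 : mu p y' = (∑ i, p i * max (y i - g) 0) / (1 - k * g) := by
      unfold mu
      rw [Finset.sum_div]
      refine Finset.sum_congr rfl fun i _ => ?_
      rw [hy']
      ring
    rw [h2]
    refine div_le_div_of_nonneg_right ?_ hd.le
    have h3 : ∀ i, p i * max (y i - g) 0 ≤ p i * y i - g * p i + g * (if y i ≤ g then p i else 0) := by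
      intro i
      have hp := hW.p0 i
      have hy := hW.y0 i
      by_cases h : y i ≤ g
      · rw [if_pos h, max_eq_right (by linarith)]
        nlinarith [mul_nonneg hp hy]
      · rw [if_neg h, max_eq_left (by linarith)]
        nlinarith
    have h4 := Finset.sum_le_sum fun i (_ : i ∈ univ) => h3 i
    have h5 : ∑ i, (p i * y i - g * p i + g * (if y i ≤ g then p i else 0)) = mu p y - g * (1 - m0) := by
      rw [Finset.sum_add_distrib, Finset.sum_sub_distrib, ← Finset.mul_sum, ← Finset.mul_sum, hW.p1]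
      unfold mu
      ring
    rw [h5] at h4
    linarith
  have h0 : 0 ≤ (x - g * (1 - m0)) / (1 - k * g) := by
    refine le_trans ?_ hmu
    exact Finset.sum_nonneg fun i _ => mul_nonneg (hW.p0 i) (hW'.y0 i)
  have hk1 : (k : ℝ) * ((x - g * (1 - m0)) / (1 - k * g)) ≤ 1 := by
    rw [mul_div_assoc', div_le_one hd]
    nlinarith
  exact h1.trans (hL ι p y' _ hW' hmu h0 hk1)

end Pool.Agent.Q162.XM
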